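import Mathlib

/-!
# MP_f09395_gt: parametric transversality, Hausdorff dimension version

The zero set of a submersion has the expected Hausdorff dimension; hence for a map `Φ(y, p)` into a
space of dimension larger than that of `y`, which is a submersion at its zeros, almost every `p`
has no zero.
-/

set_option linter.unusedSectionVars false

noncomputable section

namespace Pool.Agent.helper90.FL

open Filter Topology Module
open scoped NNReal ENNReal

section Zero

variable {X F : Type*} [NormedAddCommGroup X] [NormedSpace ℝ X] [FiniteDimensional ℝ X]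
  [NormedAddCommGroup F] [NormedSpace ℝ F] [FiniteDimensional ℝ F]

/-- Hausdorff dimension of the zero set of a submersion -/
theorem dimH_zero_le {Φ : X → F} {Z : Set X}
    (h : ∀ z ∈ Z, Φ z = 0 ∧ ∃ Φ' : X →L[ℝ] F, HasStrictFDerivAt Φ Φ' z ∧ Φ'.range = ⊤) :
    dimH Z ≤ ((finrank ℝ X - finrank ℝ F : ℕ) : ℝ≥0∞) := by
  by_contra hcon
  rw [not_le] at hcon
  obtain ⟨a, ha, H⟩ := exists_mem_nhdsWithin_lt_dimH_of_lt_dimH hcon
  obtain ⟨ha0, Φ', hΦ, hs⟩ := h a ha
  have : CompleteSpace X := FiniteDimensional.complete ℝ X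
  have : CompleteSpace F := FiniteDimensional.complete ℝ F
  have h1 := hΦ.eq_implicitFunction hs
  obtain ⟨C, T, hT, hC⟩ := (hΦ.to_implicitFunction hs).exists_lipschitzOnWith
  have h2 : Tendsto (fun x => (hΦ.implicitToOpenPartialHomeomorph Φ Φ' hs x).2) (𝓝 a) (𝓝 0) := by
    have h3 := (hΦ.implicitToOpenPartialHomeomorph Φ Φ' hs).continuousAt
      (hΦ.mem_implicitToOpenPartialHomeomorph_source hs)
    have h4 := (continuous_snd.continuousAt (x := hΦ.implicitToOpenPartialHomeomorph Φ Φ' hs a)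
      ).tendsto.comp h3.tendsto
    rw [hΦ.implicitToOpenPartialHomeomorph_self hs] at h4
    exact h4
  have h3 : ∀ᶠ x in 𝓝 a, (hΦ.implicitToOpenPartialHomeomorph Φ Φ' hs x).2 ∈ T := h2 hT
  have hset : {x | x ∈ Z ∧ (hΦ.implicitFunction Φ Φ' hs (Φ x)
      (hΦ.implicitToOpenPartialHomeomorph Φ Φ' hs x).snd = x) ∧
      (hΦ.implicitToOpenPartialHomeomorph Φ Φ' hs x).2 ∈ T} ∈ 𝓝[Z] a := by
    filter_upwards [self_mem_nhdsWithin, nhdsWithin_le_nhds h1, nhdsWithin_le_nhds h3] with x x1 x2 x3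
    exact ⟨x1, x2, x3⟩
  have h4 := H _ hset
  have h5 : {x | x ∈ Z ∧ (hΦ.implicitFunction Φ Φ' hs (Φ x)
      (hΦ.implicitToOpenPartialHomeomorph Φ Φ' hs x).snd = x) ∧
      (hΦ.implicitToOpenPartialHomeomorph Φ Φ' hs x).2 ∈ T} ⊆
      hΦ.implicitFunction Φ Φ' hs (Φ a) '' T := by
    rintro x ⟨x1, x2, x3⟩
    refine ⟨_, x3, ?_⟩
    rw [ha0, ← (h x x1).1]
    exact x2
  have h6 := (dimH_mono h5).trans hC.dimH_image_le
  have h7 : dimH T ≤ (finrank ℝ Φ'.ker : ℝ≥0∞) := by
    rw [← Real.dimH_univ_eq_finrank]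
    exact dimH_mono (Set.subset_univ _)
  have h8 : finrank ℝ Φ'.ker = finrank ℝ X - finrank ℝ F := by
    have := LinearMap.finrank_range_add_finrank_ker (Φ' : X →ₗ[ℝ] F)
    have hr : finrank ℝ (LinearMap.range (Φ' : X →ₗ[ℝ] F)) = finrank ℝ F := by
      have : LinearMap.range (Φ' : X →ₗ[ℝ] F) = ⊤ := hs
      rw [this, finrank_top]
    rw [hr] at this
    have h9 : finrank ℝ (LinearMap.ker (Φ' : X →ₗ[ℝ] F)) = finrank ℝ X - finrank ℝ F := by omega
    exact h9
  rw [h8] at h7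
  exact absurd (h4.trans_le (h6.trans h7)) (lt_irrefl _)

end Zero

section Param

variable {Y P F : Type*} [NormedAddCommGroup Y] [NormedSpace ℝ Y] [FiniteDimensional ℝ Y]
  [NormedAddCommGroup P] [NormedSpace ℝ P] [FiniteDimensional ℝ P]
  [NormedAddCommGroup F] [NormedSpace ℝ F] [FiniteDimensional ℝ F]

/-- parametric transversality, dimension of the bad set of parameters -/
theorem dimH_param {Φ : Y × P → F} {S : Set (Y × P)} (hdim : finrank ℝ Y < finrank ℝ F)
    (h : ∀ z ∈ S, Φ z = 0 → ∃ Φ' : Y × P →L[ℝ] F, HasStrictFDerivAt Φ Φ' z ∧ Φ'.range = ⊤) :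
    {z : Y × P | z ∈ S ∧ Φ z = 0} = ∅ ∨
      dimH (Prod.snd '' {z : Y × P | z ∈ S ∧ Φ z = 0}) < (finrank ℝ P : ℝ≥0∞) := by
  have h1 : dimH {z : Y × P | z ∈ S ∧ Φ z = 0} ≤
      ((finrank ℝ (Y × P) - finrank ℝ F : ℕ) : ℝ≥0∞) :=
    dimH_zero_le fun z hz => ⟨hz.2, h z hz.1 hz.2⟩
  by_cases hne : {z : Y × P | z ∈ S ∧ Φ z = 0} = ∅
  · exact Or.inl hne
  have hle : finrank ℝ F ≤ finrank ℝ (Y × P) := by
    obtain ⟨z, hz⟩ := Set.nonempty_iff_ne_empty.2 hne
    obtain ⟨Φ', -, hs⟩ := h z hz.1 hz.2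
    have h3 := LinearMap.finrank_range_le (Φ' : Y × P →ₗ[ℝ] F)
    have h4 : LinearMap.range (Φ' : Y × P →ₗ[ℝ] F) = ⊤ := hs
    rw [h4, finrank_top] at h3
    exact h3
  right
  have h3 : LipschitzWith 1 (Prod.snd : Y × P → P) := LipschitzWith.prod_snd
  refine ((h3.dimH_image_le _).trans h1).trans_lt ?_
  rw [finrank_prod] at hle ⊢
  exact_mod_cast (by omega : finrank ℝ Y + finrank ℝ P - finrank ℝ F < finrank ℝ P)

/-- parametric transversality: few variables, many equations -/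
theorem dense_param {Φ : Y × P → F} {S : Set (Y × P)} (hdim : finrank ℝ Y < finrank ℝ F)
    (h : ∀ z ∈ S, Φ z = 0 → ∃ Φ' : Y × P →L[ℝ] F, HasStrictFDerivAt Φ Φ' z ∧ Φ'.range = ⊤) :
    Dense {p : P | ∀ y : Y, (y, p) ∈ S → Φ (y, p) ≠ 0} := by
  rcases dimH_param hdim h with hne | h2
  · have : {p : P | ∀ y : Y, (y, p) ∈ S → Φ (y, p) ≠ 0} = Set.univ := by
      ext p
      simp only [Set.mem_ofPred_eq, Set.mem_univ, iff_true]
      intro y hy h0
      have : (y, p) ∈ {z : Y × P | z ∈ S ∧ Φ z = 0} := ⟨hy, h0⟩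
      rw [hne] at this
      exact this
    rw [this]
    exact dense_univ
  refine (dense_compl_of_dimH_lt_finrank h2).mono ?_
  intro p hp y hy h0
  exact hp ⟨(y, p), ⟨hy, h0⟩, rfl⟩

/-- a set of parameters is negligible if it is empty or of smaller Hausdorff dimension -/
def Negl (B : Set P) : Prop := B = ∅ ∨ dimH B < (finrank ℝ P : ℝ≥0∞)

theorem Negl.mono {B C : Set P} (h : Negl C) (hBC : B ⊆ C) : Negl B := by
  rcases h with h | h
  · left; rw [h] at hBC; exact Set.subset_empty_iff.1 hBC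
  · right; exact (dimH_mono hBC).trans_lt h

theorem Negl.union {B C : Set P} (h : Negl B) (h' : Negl C) : Negl (B ∪ C) := by
  rcases h with h | h
  · rw [h, Set.empty_union]; exact h'
  · rcases h' with h' | h'
    · rw [h', Set.union_empty]; exact Or.inr h
    · right; rw [dimH_union]; exact max_lt h h'

theorem Negl.biUnion {κ : Type*} (t : Finset κ) {B : κ → Set P} (h : ∀ i ∈ t, Negl (B i)) :
    Negl (⋃ i ∈ t, B i) := by
  classical
  induction t using Finset.induction_on with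
  | empty => left; simp
  | insert a t ha ih =>
    have e : (⋃ i ∈ insert a t, B i) = B a ∪ ⋃ i ∈ t, B i := by simp
    rw [e]
    exact (h a (Finset.mem_insert_self a t)).union
      (ih fun i hi => h i (Finset.mem_insert_of_mem hi))

theorem Negl.dense {B : Set P} (h : Negl B) : Dense Bᶜ := by
  rcases h with h | h
  · rw [h, Set.compl_empty]; exact dense_univ
  · exact dense_compl_of_dimH_lt_finrank h

/-- there are arbitrarily small parameters outside a negligible set -/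
theorem Negl.exists_small {B : Set P} (h : Negl B) (p₀ : P) {ε : ℝ} (hε : 0 < ε) :
    ∃ p, p ∉ B ∧ ‖p - p₀‖ < ε := by
  obtain ⟨p, hp1, hp2⟩ := h.dense.exists_mem_open (Metric.isOpen_ball (x := p₀) (ε := ε))
    ⟨p₀, Metric.mem_ball_self hε⟩
  exact ⟨p, hp1, by rw [← dist_eq_norm]; simpa using hp2⟩

/-- parametric transversality, negligible bad set -/
theorem negl_param {Φ : Y × P → F} {S : Set (Y × P)} (hdim : finrank ℝ Y < finrank ℝ F)
    (h : ∀ z ∈ S, Φ z = 0 → ∃ Φ' : Y × P →L[ℝ] F, HasStrictFDerivAt Φ Φ' z ∧ Φ'.range = ⊤) :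
    Negl {p : P | ∃ y : Y, (y, p) ∈ S ∧ Φ (y, p) = 0} := by
  have e : {p : P | ∃ y : Y, (y, p) ∈ S ∧ Φ (y, p) = 0} =
      Prod.snd '' {z : Y × P | z ∈ S ∧ Φ z = 0} := by
    ext p
    constructor
    · rintro ⟨y, hy⟩; exact ⟨(y, p), hy, rfl⟩
    · rintro ⟨⟨y, p'⟩, hy, rfl⟩; exact ⟨y, hy⟩
  rw [e]
  rcases dimH_param hdim h with hne | h2
  · left; rw [hne, Set.image_empty]
  · exact Or.inr h2

/-- parametric transversality when the derivative in the direction of the parameters is already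
surjective, negligible bad set -/
theorem negl_param' {Φ : Y × P → F} {S : Set (Y × P)} (hdim : finrank ℝ Y < finrank ℝ F)
    (h : ∀ z ∈ S, Φ z = 0 → ContDiffAt ℝ 1 Φ z ∧
      Function.Surjective (fun q : P => fderiv ℝ Φ z (0, q))) :
    Negl {p : P | ∃ y : Y, (y, p) ∈ S ∧ Φ (y, p) = 0} := by
  refine negl_param hdim fun z hz h0 => ?_
  obtain ⟨h1, h2⟩ := h z hz h0
  refine ⟨_, h1.hasStrictFDerivAt one_ne_zero, ?_⟩
  refine LinearMap.range_eq_top.2 fun w => ?_
  obtain ⟨q, hq⟩ := h2 w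
  exact ⟨(0, q), hq⟩

/-- parametric transversality when the derivative in the direction of the parameters is already
surjective -/
theorem dense_param' {Φ : Y × P → F} {S : Set (Y × P)} (hdim : finrank ℝ Y < finrank ℝ F)
    (h : ∀ z ∈ S, Φ z = 0 → ContDiffAt ℝ 1 Φ z ∧
      Function.Surjective (fun q : P => fderiv ℝ Φ z (0, q))) :
    Dense {p : P | ∀ y : Y, (y, p) ∈ S → Φ (y, p) ≠ 0} := by
  refine dense_param hdim fun z hz h0 => ?_
  obtain ⟨h1, h2⟩ := h z hz h0
  refine ⟨_, h1.hasStrictFDerivAt one_ne_zero, ?_⟩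
  refine LinearMap.range_eq_top.2 fun w => ?_
  obtain ⟨q, hq⟩ := h2 w
  exact ⟨(0, q), hq⟩

end Param

end Pool.Agent.helper90.FL
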