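import Mathlib

/-!
# MP_f09395_gt: towers of derivatives along (nonlinear) vector fields

`tow A V Λ v 0 = Dv(A)` and `tow (j+1) = D(tow j)(V + Λ(Dv))`.  The cases in use are
`V = A = W`, `Λ = 0` (derivatives along a fixed field) and `V = 0` (derivatives along the
Hamiltonian field of `v`).
-/

noncomputable section

namespace Pool.Agent.helper90.FL

open Filter Topology
open scoped ContDiff

variable {M : Type*} [NormedAddCommGroup M] [NormedSpace ℝ M]

/-- the field of `v` -/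
def fld (V : M → M) (Λ : M → ((M →L[ℝ] ℝ) →L[ℝ] M)) (v : M → ℝ) (x : M) : M :=
  V x + Λ x (fderiv ℝ v x)

/-- the tower of derivatives -/
def tow (A V : M → M) (Λ : M → ((M →L[ℝ] ℝ) →L[ℝ] M)) (v : M → ℝ) : ℕ → M → ℝ
  | 0 => fun x => fderiv ℝ v x (A x)
  | j + 1 => fun x => fderiv ℝ (tow A V Λ v j) x (fld V Λ v x)

/-- the zero bundle map -/
def zeroL (M : Type*) [NormedAddCommGroup M] [NormedSpace ℝ M] : M → ((M →L[ℝ] ℝ) →L[ℝ] M) :=
  fun _ => 0

theorem zeroL_smooth (U : Set M) : ContDiffOn ℝ ∞ (zeroL M) U := contDiffOn_const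

theorem fld_zeroL (V : M → M) (v : M → ℝ) (x : M) : fld V (zeroL M) v x = V x := by
  simp [fld, zeroL]

variable {U : Set M} {A V : M → M} {Λ : M → ((M →L[ℝ] ℝ) →L[ℝ] M)} {v s : M → ℝ}

theorem fder_smooth (hU : IsOpen U) {f : M → ℝ} (hf : ContDiffOn ℝ ∞ f U) :
    ContDiffOn ℝ ∞ (fun x => fderiv ℝ f x) U :=
  hf.fderiv_of_isOpen hU (by norm_cast)

theorem fder_app_smooth (hU : IsOpen U) {f : M → ℝ} (hf : ContDiffOn ℝ ∞ f U) {Y : M → M}
    (hY : ContDiffOn ℝ ∞ Y U) : ContDiffOn ℝ ∞ (fun x => fderiv ℝ f x (Y x)) U :=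
  (fder_smooth hU hf).clm_apply hY

theorem fld_smooth (hU : IsOpen U) (hV : ContDiffOn ℝ ∞ V U) (hΛ : ContDiffOn ℝ ∞ Λ U)
    (hv : ContDiffOn ℝ ∞ v U) : ContDiffOn ℝ ∞ (fld V Λ v) U :=
  hV.add (hΛ.clm_apply (fder_smooth hU hv))

theorem tow_smooth (hU : IsOpen U) (hA : ContDiffOn ℝ ∞ A U) (hV : ContDiffOn ℝ ∞ V U)
    (hΛ : ContDiffOn ℝ ∞ Λ U) (hv : ContDiffOn ℝ ∞ v U) (j : ℕ) :
    ContDiffOn ℝ ∞ (tow A V Λ v j) U := by
  induction j with
  | zero => exact fder_app_smooth hU hv hA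
  | succ j ih => exact fder_app_smooth hU ih (fld_smooth hU hV hΛ hv)

theorem dif_at (hU : IsOpen U) {f : M → ℝ} (hf : ContDiffOn ℝ ∞ f U) {x : M} (hx : x ∈ U) :
    DifferentiableAt ℝ f x :=
  (hf.contDiffAt (hU.mem_nhds hx)).differentiableAt (by simp)

/-- **key identity**: the effect of adding `τ (s - s x₀) ^ (K + 1)` -/
theorem tow_add_pow (hU : IsOpen U) (hA : ContDiffOn ℝ ∞ A U) (hV : ContDiffOn ℝ ∞ V U)
    (hΛ : ContDiffOn ℝ ∞ Λ U) (hv : ContDiffOn ℝ ∞ v U) (hs : ContDiffOn ℝ ∞ s U) {x₀ : M}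
    (hx₀ : x₀ ∈ U) (τ C : ℝ) (K : ℕ) {v' : M → ℝ}
    (hv' : ∀ x, v' x = v x + τ * (s x - s x₀) ^ (K + 1) + C) (j : ℕ) (hj : j ≤ K) :
    ∃ R : M → ℝ, ContDiffOn ℝ ∞ R U ∧
      (∀ x ∈ U, tow A V Λ v' j x = tow A V Λ v j x + (s x - s x₀) ^ (K - j) * R x) ∧
      R x₀ = τ * ((K + 1).descFactorial (j + 1) : ℝ) * (fderiv ℝ s x₀ (fld V Λ v x₀)) ^ j *
        fderiv ℝ s x₀ (A x₀) := by
  have hσ : ContDiffOn ℝ ∞ (fun x => s x - s x₀) U := hs.sub contDiffOn_const
  have hv's : ContDiffOn ℝ ∞ v' U := by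
    have : v' = fun x => v x + τ * (s x - s x₀) ^ (K + 1) + C := funext hv'
    rw [this]
    exact (hv.add (contDiffOn_const.mul (hσ.pow _))).add contDiffOn_const
  have hD : ∀ x ∈ U, fderiv ℝ v' x = fderiv ℝ v x +
      (τ * ((K + 1 : ℕ) : ℝ) * (s x - s x₀) ^ K) • fderiv ℝ s x := by
    intro x hx
    have h1 := (dif_at hU hs hx).hasFDerivAt
    have h2 := ((h1.sub_const (s x₀)).pow (K + 1)).const_mul τ
    have h3 := ((dif_at hU hv hx).hasFDerivAt.add h2).add_const C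
    have h4 : v' = fun x => v x + τ * (s x - s x₀) ^ (K + 1) + C := funext hv'
    have h5 : HasFDerivAt v' (fderiv ℝ v x + τ • (((K + 1 : ℕ) : ℝ) * (s x - s x₀) ^ (K + 1 - 1)) •
        fderiv ℝ s x) x := by
      rw [h4]
      refine h3.congr_fderiv ?_
      ext w
      simp [nsmul_eq_mul]
    rw [h5.fderiv]
    ext w
    simp only [Nat.add_sub_cancel, add_apply, smul_apply,
      smul_eq_mul]
    ring
  have hfld : ∀ x ∈ U, fld V Λ v' x = fld V Λ v x +
      (τ * ((K + 1 : ℕ) : ℝ) * (s x - s x₀) ^ K) • Λ x (fderiv ℝ s x) := by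
    intro x hx
    unfold fld
    rw [hD x hx, map_add, map_smul, add_assoc]
  induction j with
  | zero =>
    refine ⟨fun x => τ * ((K + 1 : ℕ) : ℝ) * fderiv ℝ s x (A x), ?_, ?_, ?_⟩
    · exact contDiffOn_const.mul (fder_app_smooth hU hs hA)
    · intro x hx
      simp only [tow]
      rw [hD x hx]
      simp only [add_apply, smul_apply, smul_eq_mul,
        Nat.sub_zero]
      ring
    · simp
  | succ j ih =>
    obtain ⟨R, hR, hR1, hR2⟩ := ih (by omega)
    obtain ⟨n, hn⟩ : ∃ n, K - (j + 1) = n := ⟨_, rfl⟩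
    have hn1 : K - j = n + 1 := by omega
    have hK : K = n + (j + 1) := by omega
    refine ⟨fun x => τ * ((K + 1 : ℕ) : ℝ) * (s x - s x₀) ^ (j + 1) *
        fderiv ℝ (tow A V Λ v j) x (Λ x (fderiv ℝ s x)) +
        ((n : ℝ) + 1) * R x * fderiv ℝ s x (fld V Λ v' x) +
        (s x - s x₀) * fderiv ℝ R x (fld V Λ v' x), ?_, ?_, ?_⟩
    · have h1 := tow_smooth hU hA hV hΛ hv j
      have h2 := fld_smooth hU hV hΛ hv's
      refine ((((contDiffOn_const.mul (hσ.pow _)).mul (fder_app_smooth hU h1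
        (hΛ.clm_apply (fder_smooth hU hs)))).add ((contDiffOn_const.mul hR).mul
        (fder_app_smooth hU hs h2)))).add (hσ.mul (fder_app_smooth hU hR h2))
    · intro x hx
      have h1 : tow A V Λ v' j =ᶠ[𝓝 x] fun x => tow A V Λ v j x + (s x - s x₀) ^ (n + 1) * R x := by
        filter_upwards [hU.mem_nhds hx] with y hy
        rw [hR1 y hy, hn1]
      have h2 := dif_at hU (tow_smooth hU hA hV hΛ hv j) hx
      have h3 := dif_at hU hs hx
      have h4 := dif_at hU hR hx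
      have h5 := h2.hasFDerivAt.add (((h3.hasFDerivAt.sub_const (s x₀)).pow (n + 1)).mul
        h4.hasFDerivAt)
      have h6 : fderiv ℝ (tow A V Λ v' j) x = fderiv ℝ (tow A V Λ v j) x +
          (((n : ℝ) + 1) * (s x - s x₀) ^ n * R x) • fderiv ℝ s x +
          ((s x - s x₀) ^ (n + 1)) • fderiv ℝ R x := by
        rw [h1.fderiv_eq]
        refine (h5.congr_fderiv ?_).fderiv
        ext w
        simp [nsmul_eq_mul]
        ring
      show fderiv ℝ (tow A V Λ v' j) x (fld V Λ v' x) =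
        fderiv ℝ (tow A V Λ v j) x (fld V Λ v x) + (s x - s x₀) ^ (K - (j + 1)) * _
      rw [h6]
      have h7 : fderiv ℝ (tow A V Λ v j) x (fld V Λ v' x) =
          fderiv ℝ (tow A V Λ v j) x (fld V Λ v x) + (τ * ((K + 1 : ℕ) : ℝ) * (s x - s x₀) ^ K) *
            fderiv ℝ (tow A V Λ v j) x (Λ x (fderiv ℝ s x)) := by
        rw [hfld x hx, map_add, map_smul, smul_eq_mul]
      simp only [add_apply, smul_apply, smul_eq_mul]
      rw [h7, hn]
      have h8 : (s x - s x₀) ^ K = (s x - s x₀) ^ n * (s x - s x₀) ^ (j + 1) := by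
        rw [← pow_add, ← hK]
      rw [h8, pow_succ (s x - s x₀) n]
      ring
    · have h1 : fld V Λ v' x₀ = fld V Λ v x₀ := by
        rw [hfld x₀ hx₀, sub_self, zero_pow (by omega : K ≠ 0)]
        simp
      simp only [sub_self, zero_mul, add_zero]
      rw [zero_pow (Nat.succ_ne_zero j), h1, hR2, Nat.descFactorial_succ (K + 1) (j + 1)]
      have h2 : K + 1 - (j + 1) = n + 1 := by omega
      rw [h2]
      push_cast
      ring

end Pool.Agent.helper90.FL
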