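import Pool.Agent.helper90.FL.PT
import Pool.Agent.helper90.FL.Tow

/-!
# MP_f09395_gt: generic finite type

For almost all small coefficients `p` the function `v + ∑ p i k (s i) ^ (k + 1)` has nonvanishing
tower at every point where some `s i` is moved by the first direction and by its own field.
-/

set_option linter.unusedSectionVars false

noncomputable section

namespace Pool.Agent.helper90.FL

open Filter Topology Module
open scoped ContDiff

variable {M P : Type*} [NormedAddCommGroup M] [NormedSpace ℝ M]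
  [NormedAddCommGroup P] [NormedSpace ℝ P]

/-- lift of a vector field to the product with the parameter space -/
def liftV (P : Type*) [NormedAddCommGroup P] [NormedSpace ℝ P] (V : M → M) (z : M × P) : M × P :=
  (V z.1, 0)

/-- lift of the bundle map -/
def liftL (P : Type*) [NormedAddCommGroup P] [NormedSpace ℝ P]
    (Λ : M → ((M →L[ℝ] ℝ) →L[ℝ] M)) (z : M × P) : ((M × P →L[ℝ] ℝ) →L[ℝ] M × P) :=
  (ContinuousLinearMap.inl ℝ M P) ∘L (Λ z.1) ∘L
    ((ContinuousLinearMap.compL ℝ M (M × P) ℝ).flip (ContinuousLinearMap.inl ℝ M P))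

theorem liftL_apply (Λ : M → ((M →L[ℝ] ℝ) →L[ℝ] M)) (z : M × P) (ℓ : M × P →L[ℝ] ℝ) :
    liftL P Λ z ℓ = (Λ z.1 (ℓ ∘L ContinuousLinearMap.inl ℝ M P), 0) := rfl

variable {U : Set M} {A V : M → M} {Λ : M → ((M →L[ℝ] ℝ) →L[ℝ] M)} {v : M → ℝ}

theorem liftV_smooth {Y : M → M} (hY : ContDiffOn ℝ ∞ Y U) :
    ContDiffOn ℝ ∞ (liftV P Y) (U ×ˢ Set.univ) :=
  (hY.comp contDiff_fst.contDiffOn fun _ hz => hz.1).prodMk contDiffOn_const

theorem liftL_smooth (hΛ : ContDiffOn ℝ ∞ Λ U) :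
    ContDiffOn ℝ ∞ (liftL P Λ) (U ×ˢ Set.univ) := by
  have h1 : ContDiffOn ℝ ∞ (fun z : M × P => Λ z.1) (U ×ˢ Set.univ) :=
    hΛ.comp contDiff_fst.contDiffOn fun _ hz => hz.1
  exact contDiffOn_const.clm_comp (h1.clm_comp contDiffOn_const)

theorem slice_fderiv {f : M × P → ℝ} {x : M} {p : P} (hf : DifferentiableAt ℝ f (x, p)) :
    fderiv ℝ (fun y => f (y, p)) x = fderiv ℝ f (x, p) ∘L ContinuousLinearMap.inl ℝ M P := by
  have h1 : HasFDerivAt (fun y : M => (y, p)) (ContinuousLinearMap.inl ℝ M P) x :=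
    (hasFDerivAt_id x).prodMk (hasFDerivAt_const p x)
  exact (hf.hasFDerivAt.comp x h1).fderiv

theorem slice_tow (hU : IsOpen U) (hA : ContDiffOn ℝ ∞ A U) (hV : ContDiffOn ℝ ∞ V U)
    (hΛ : ContDiffOn ℝ ∞ Λ U) {F : M × P → ℝ} (hF : ContDiffOn ℝ ∞ F (U ×ˢ Set.univ)) (j : ℕ) :
    ∀ x ∈ U, ∀ p : P, tow (liftV P A) (liftV P V) (liftL P Λ) F j (x, p) =
      tow A V Λ (fun y => F (y, p)) j x := by
  have hUP : IsOpen (U ×ˢ (Set.univ : Set P)) := hU.prod isOpen_univ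
  induction j with
  | zero =>
    intro x hx p
    have h1 := dif_at hUP hF (x := (x, p)) ⟨hx, Set.mem_univ _⟩
    simp only [tow]
    rw [slice_fderiv h1]
    rfl
  | succ j ih =>
    intro x hx p
    have h1 := dif_at hUP hF (x := (x, p)) ⟨hx, Set.mem_univ _⟩
    have h2 := dif_at hUP (tow_smooth hUP (liftV_smooth hA) (liftV_smooth hV) (liftL_smooth hΛ)
      hF j) (x := (x, p)) ⟨hx, Set.mem_univ _⟩
    have h3 : (fun y => tow (liftV P A) (liftV P V) (liftL P Λ) F j (y, p)) =ᶠ[𝓝 x]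
        tow A V Λ (fun y => F (y, p)) j := by
      filter_upwards [hU.mem_nhds hx] with y hy
      exact ih y hy p
    show fderiv ℝ (tow (liftV P A) (liftV P V) (liftL P Λ) F j) (x, p)
        (fld (liftV P V) (liftL P Λ) F (x, p)) =
      fderiv ℝ (tow A V Λ (fun y => F (y, p)) j) x (fld V Λ (fun y => F (y, p)) x)
    rw [← h3.fderiv_eq, slice_fderiv h2]
    have h4 : fld (liftV P V) (liftL P Λ) F (x, p) =
        (fld V Λ (fun y => F (y, p)) x, (0 : P)) := by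
      unfold fld
      rw [liftL_apply, slice_fderiv h1]
      simp [liftV]
    rw [h4]
    rfl

section Main

variable {ι : Type*} [Fintype ι] [DecidableEq ι] {J : ℕ}

/-- the perturbed function -/
def pert (v : M → ℝ) (s : ι → M → ℝ) (p : ι → Fin J → ℝ) (x : M) : ℝ :=
  v x + ∑ i, ∑ k : Fin J, p i k * s i x ^ (k.1 + 1)

theorem pert_smooth {s : ι → M → ℝ} (hv : ContDiffOn ℝ ∞ v U)
    (hs : ∀ i, ContDiffOn ℝ ∞ (s i) U) :
    ContDiffOn ℝ ∞ (fun z : M × (ι → Fin J → ℝ) => pert v s z.2 z.1) (U ×ˢ Set.univ) := by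
  have h1 : ∀ {f : M → ℝ}, ContDiffOn ℝ ∞ f U →
      ContDiffOn ℝ ∞ (fun z : M × (ι → Fin J → ℝ) => f z.1) (U ×ˢ Set.univ) := fun hf =>
    hf.comp contDiff_fst.contDiffOn fun _ hz => hz.1
  refine (h1 hv).add (ContDiffOn.sum fun i _ => ContDiffOn.sum fun k _ => ?_)
  refine ContDiffOn.mul ?_ ((h1 (hs i)).pow _)
  have h2 : ContDiff ℝ ∞ (fun z : M × (ι → Fin J → ℝ) => z.2 i k) := by
    have h3 : ContDiff ℝ ∞ (fun q : ι → Fin J → ℝ => q i k) :=
      (contDiff_apply ℝ ℝ k).comp (contDiff_apply ℝ (Fin J → ℝ) i)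
    exact h3.comp contDiff_snd
  exact h2.contDiffOn

theorem pert_smooth' {s : ι → M → ℝ} (hv : ContDiffOn ℝ ∞ v U)
    (hs : ∀ i, ContDiffOn ℝ ∞ (s i) U) (p : ι → Fin J → ℝ) :
    ContDiffOn ℝ ∞ (pert v s p) U :=
  (pert_smooth hv hs).comp (contDiff_id.prodMk contDiff_const).contDiffOn
    fun _ hx => ⟨hx, Set.mem_univ _⟩

/-- recentred direction -/
def dirK (i₀ : ι) (c : ℝ) (K : Fin J) : ι → Fin J → ℝ :=
  fun i l => if i = i₀ then ((K.1 + 1).choose (l.1 + 1) : ℝ) * (-c) ^ (K.1 - l.1) else 0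

theorem pert_dirK {s : ι → M → ℝ} (p : ι → Fin J → ℝ) (i₀ : ι) (c τ : ℝ) (K : Fin J) (x : M) :
    pert v s (p + τ • dirK i₀ c K) x =
      pert v s p x + τ * (s i₀ x - c) ^ (K.1 + 1) + -(τ * (-c) ^ (K.1 + 1)) := by
  have h1 : ∑ i, ∑ k : Fin J, (p + τ • dirK i₀ c K) i k * s i x ^ (k.1 + 1) =
      ∑ i, ∑ k : Fin J, p i k * s i x ^ (k.1 + 1) +
      τ * ∑ k : Fin J, ((K.1 + 1).choose (k.1 + 1) : ℝ) * (-c) ^ (K.1 - k.1) *
        s i₀ x ^ (k.1 + 1) := by
    rw [← Finset.sum_erase_add _ _ (Finset.mem_univ i₀)]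
    rw [← Finset.sum_erase_add Finset.univ (fun i => ∑ k : Fin J, p i k * s i x ^ (k.1 + 1))
      (Finset.mem_univ i₀)]
    rw [Finset.mul_sum, add_assoc, ← Finset.sum_add_distrib]
    congr 1
    · refine Finset.sum_congr rfl fun i hi => Finset.sum_congr rfl fun k _ => ?_
      have : i ≠ i₀ := Finset.ne_of_mem_erase hi
      simp [dirK, this]
    · refine Finset.sum_congr rfl fun k _ => ?_
      simp only [Pi.add_apply, Pi.smul_apply, dirK, smul_eq_mul, if_true]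
      ring
  have h2 : (s i₀ x - c) ^ (K.1 + 1) = (-c) ^ (K.1 + 1) +
      ∑ k : Fin J, ((K.1 + 1).choose (k.1 + 1) : ℝ) * (-c) ^ (K.1 - k.1) *
        s i₀ x ^ (k.1 + 1) := by
    rw [sub_eq_add_neg, add_pow, Finset.sum_range_succ']
    rw [Fin.sum_univ_eq_sum_range (fun k => ((K.1 + 1).choose (k + 1) : ℝ) * (-c) ^ (K.1 - k) *
        s i₀ x ^ (k + 1)) J]
    have h3 : ∑ k ∈ Finset.range J, ((K.1 + 1).choose (k + 1) : ℝ) * (-c) ^ (K.1 - k) *
        s i₀ x ^ (k + 1) = ∑ k ∈ Finset.range (K.1 + 1),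
        ((K.1 + 1).choose (k + 1) : ℝ) * (-c) ^ (K.1 - k) * s i₀ x ^ (k + 1) := by
      symm
      refine Finset.sum_subset (Finset.range_mono (Nat.succ_le_of_lt K.2)) fun k _ hk => ?_
      rw [Nat.choose_eq_zero_of_lt]
      · simp
      · rw [Finset.mem_range, not_lt] at hk; omega
    rw [h3]
    simp only [pow_zero, one_mul, Nat.sub_zero, Nat.choose_zero_right, Nat.cast_one, mul_one]
    rw [add_comm]
    congr 1
    refine Finset.sum_congr rfl fun k hk => ?_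
    rw [Nat.add_sub_add_right]
    ring
  unfold pert
  rw [h1, h2]
  ring

theorem tri_surj {E' : Type*} [AddCommGroup E'] [Module ℝ E'] (L : E' →ₗ[ℝ] (Fin J → ℝ))
    (q : Fin J → E') (h0 : ∀ K j : Fin J, j < K → L (q K) j = 0)
    (h1 : ∀ K : Fin J, L (q K) K ≠ 0) : Function.Surjective L := by
  classical
  let B : Matrix (Fin J) (Fin J) ℝ := Matrix.of fun j K => L (q K) j
  have hB : B.det ≠ 0 := by
    rw [Matrix.det_of_isLowerTriangular B (fun j K hjK => h0 K j hjK)]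
    exact Finset.prod_ne_zero_iff.2 fun K _ => h1 K
  intro w
  have hu : IsUnit B.det := isUnit_iff_ne_zero.2 hB
  refine ⟨∑ K, (B⁻¹.mulVec w) K • q K, ?_⟩
  rw [map_sum]
  have h2 : B.mulVec (B⁻¹.mulVec w) = w := by
    rw [Matrix.mulVec_mulVec, Matrix.mul_nonsing_inv _ hu, Matrix.one_mulVec]
  funext j
  have h3 := congrFun h2 j
  rw [Finset.sum_apply]
  rw [← h3]
  simp only [map_smul, Pi.smul_apply, smul_eq_mul, Matrix.mulVec, dotProduct, B, Matrix.of_apply]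
  exact Finset.sum_congr rfl fun K _ => mul_comm _ _

/-- the tower as a map on the product with the parameter space -/
def bigT (A V : M → M) (Λ : M → ((M →L[ℝ] ℝ) →L[ℝ] M)) (v : M → ℝ) (s : ι → M → ℝ)
    (z : M × (ι → Fin J → ℝ)) (j : Fin J) : ℝ :=
  tow (liftV (ι → Fin J → ℝ) A) (liftV (ι → Fin J → ℝ) V) (liftL (ι → Fin J → ℝ) Λ)
    (fun z : M × (ι → Fin J → ℝ) => pert v s z.2 z.1) j z

variable [FiniteDimensional ℝ M]

/-- **generic finite type**, negligible bad set -/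
theorem gft_negl (hU : IsOpen U) (hA : ContDiffOn ℝ ∞ A U) (hV : ContDiffOn ℝ ∞ V U)
    (hΛ : ContDiffOn ℝ ∞ Λ U) {s : ι → M → ℝ} (hs : ∀ i, ContDiffOn ℝ ∞ (s i) U)
    (hv : ContDiffOn ℝ ∞ v U) (hJ : finrank ℝ M < J) :
    Negl {p : ι → Fin J → ℝ | ∃ x ∈ U, (∃ i, fderiv ℝ (s i) x (A x) ≠ 0 ∧
      fderiv ℝ (s i) x (fld V Λ (pert v s p) x) ≠ 0) ∧
      ∀ j : Fin J, tow A V Λ (pert v s p) j x = 0} := by
  have hUP : IsOpen (U ×ˢ (Set.univ : Set (ι → Fin J → ℝ))) := hU.prod isOpen_univ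
  have hF := pert_smooth (J := J) hv hs
  have hΦ : ∀ j : ℕ, ContDiffOn ℝ ∞ (tow (liftV (ι → Fin J → ℝ) A) (liftV (ι → Fin J → ℝ) V)
      (liftL (ι → Fin J → ℝ) Λ) (fun z : M × (ι → Fin J → ℝ) => pert v s z.2 z.1) j)
      (U ×ˢ Set.univ) := fun j =>
    tow_smooth hUP (liftV_smooth hA) (liftV_smooth hV) (liftL_smooth hΛ) hF j
  have key := negl_param' (Y := M) (P := ι → Fin J → ℝ) (F := Fin J → ℝ)
    (Φ := bigT A V Λ v s)
    (S := {z : M × (ι → Fin J → ℝ) | z.1 ∈ U ∧ ∃ i, fderiv ℝ (s i) z.1 (A z.1) ≠ 0 ∧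
      fderiv ℝ (s i) z.1 (fld V Λ (pert v s z.2) z.1) ≠ 0})
    (by rw [finrank_fin_fun]; exact hJ)
    (by
      rintro ⟨x, p⟩ ⟨hx, i, hi1, hi2⟩ -
      have hx' : ((x, p) : M × (ι → Fin J → ℝ)) ∈ U ×ˢ (Set.univ : Set (ι → Fin J → ℝ)) :=
        ⟨hx, Set.mem_univ _⟩
      have hcd : ContDiffAt ℝ 1 (bigT (J := J) A V Λ v s) (x, p) := by
        rw [contDiffAt_pi]
        intro j
        exact ((hΦ j).contDiffAt (hUP.mem_nhds hx')).of_le (by norm_cast)
      refine ⟨hcd, ?_⟩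
      have hd := (hcd.differentiableAt one_ne_zero).hasFDerivAt
      have hval : ∀ K j : Fin J, j ≤ K →
          fderiv ℝ (bigT (J := J) A V Λ v s) (x, p) (0, dirK i (s i x) K) j =
          (0 : ℝ) ^ (K.1 - j.1) * (((K.1 + 1).descFactorial (j.1 + 1) : ℝ) *
            (fderiv ℝ (s i) x (fld V Λ (pert v s p) x)) ^ j.1 * fderiv ℝ (s i) x (A x)) := by
        intro K j hj
        have h1 : HasDerivAt (fun τ : ℝ => ((x, p) : M × (ι → Fin J → ℝ)) +
            τ • ((0 : M), dirK i (s i x) K)) ((0 : M), dirK i (s i x) K) 0 := by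
          simpa using ((hasDerivAt_id (0 : ℝ)).smul_const
            (((0 : M), dirK i (s i x) K) : M × (ι → Fin J → ℝ))).const_add (x, p)
        have h2 : HasFDerivAt (bigT (J := J) A V Λ v s)
            (fderiv ℝ (bigT (J := J) A V Λ v s) (x, p))
            (((x, p) : M × (ι → Fin J → ℝ)) + (0 : ℝ) • ((0 : M), dirK i (s i x) K)) := by
          rw [zero_smul, add_zero]; exact hd
        have h3 := (hasDerivAt_pi.1 (h2.comp_hasDerivAt (0 : ℝ) h1)) j
        have h4 : ∀ τ : ℝ, bigT (J := J) A V Λ v s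
            (((x, p) : M × (ι → Fin J → ℝ)) + τ • ((0 : M), dirK i (s i x) K)) j =
            tow A V Λ (pert v s p) j x + τ * ((0 : ℝ) ^ (K.1 - j.1) *
              (((K.1 + 1).descFactorial (j.1 + 1) : ℝ) *
              (fderiv ℝ (s i) x (fld V Λ (pert v s p) x)) ^ j.1 * fderiv ℝ (s i) x (A x))) := by
          intro τ
          have h5 : (((x, p) : M × (ι → Fin J → ℝ)) + τ • ((0 : M), dirK i (s i x) K)) =
              (x, p + τ • dirK i (s i x) K) := by
            simp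
          unfold bigT
          rw [h5, slice_tow hU hA hV hΛ hF j x hx]
          obtain ⟨R, -, hR1, hR2⟩ := tow_add_pow hU hA hV hΛ (pert_smooth' hv hs p) (hs i) hx τ
            (-(τ * (-(s i x)) ^ (K.1 + 1))) K.1
            (v' := fun y => pert v s (p + τ • dirK i (s i x) K) y)
            (fun y => pert_dirK p i (s i x) τ K y) j.1 hj
          rw [hR1 x hx, hR2, sub_self]
          ring
        have h6 : HasDerivAt (fun τ : ℝ => tow A V Λ (pert v s p) j x + τ *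
            ((0 : ℝ) ^ (K.1 - j.1) * (((K.1 + 1).descFactorial (j.1 + 1) : ℝ) *
              (fderiv ℝ (s i) x (fld V Λ (pert v s p) x)) ^ j.1 * fderiv ℝ (s i) x (A x))))
            ((0 : ℝ) ^ (K.1 - j.1) * (((K.1 + 1).descFactorial (j.1 + 1) : ℝ) *
              (fderiv ℝ (s i) x (fld V Λ (pert v s p) x)) ^ j.1 * fderiv ℝ (s i) x (A x))) 0 := by
          simpa using ((hasDerivAt_id (0 : ℝ)).mul_const _).const_add
            (tow A V Λ (pert v s p) j x)
        have h7 := h6.congr_of_eventuallyEq (Filter.Eventually.of_forall h4)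
        exact h3.unique h7
      have hsurj := tri_surj (J := J) ((fderiv ℝ (bigT (J := J) A V Λ v s) (x, p)).toLinearMap ∘ₗ
            (LinearMap.inr ℝ M (ι → Fin J → ℝ))) (fun K => dirK i (s i x) K)
        (fun K j hjK => by
          show fderiv ℝ (bigT (J := J) A V Λ v s) (x, p) (0, dirK i (s i x) K) j = 0
          rw [hval K j hjK.le, zero_pow (by
            have : j.1 < K.1 := hjK
            omega), zero_mul])
        (fun K => by
          show fderiv ℝ (bigT (J := J) A V Λ v s) (x, p) (0, dirK i (s i x) K) K ≠ 0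
          rw [hval K K le_rfl, Nat.sub_self, pow_zero, one_mul, Nat.descFactorial_self]
          exact mul_ne_zero (mul_ne_zero (by positivity) (pow_ne_zero _ hi2)) hi1)
      exact hsurj)
  refine key.mono ?_
  rintro p ⟨x, hx, hi, h0⟩
  refine ⟨x, ⟨hx, hi⟩, ?_⟩
  funext j
  simp only [Pi.zero_apply]
  unfold bigT
  rw [slice_tow hU hA hV hΛ hF j x hx]
  exact h0 j

/-- **generic finite type** -/
theorem gft (hU : IsOpen U) (hA : ContDiffOn ℝ ∞ A U) (hV : ContDiffOn ℝ ∞ V U)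
    (hΛ : ContDiffOn ℝ ∞ Λ U) {s : ι → M → ℝ} (hs : ∀ i, ContDiffOn ℝ ∞ (s i) U)
    (hv : ContDiffOn ℝ ∞ v U) (hJ : finrank ℝ M < J) :
    Dense {p : ι → Fin J → ℝ | ∀ x ∈ U, (∃ i, fderiv ℝ (s i) x (A x) ≠ 0 ∧
      fderiv ℝ (s i) x (fld V Λ (pert v s p) x) ≠ 0) →
      ∃ j : Fin J, tow A V Λ (pert v s p) j x ≠ 0} := by
  refine (gft_negl hU hA hV hΛ hs hv hJ).dense.mono ?_
  intro p hp x hx hi
  by_contra hcon
  push Not at hcon
  exact hp ⟨x, hx, hi, hcon⟩

end Main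

end Pool.Agent.helper90.FL
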