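import Pool.Agent.helper90.FL.Gft

/-!
# MP_f09395_gt: generic finite type, affine version

`X` is a fixed vector field, `f = f₀ + ∑ p a k * g a * (s a) ^ k`.  For almost all `p` the tower
`f, X f, X X f, ..` does not vanish at any point where some `g a` and `X (s a)` are nonzero.
-/

set_option linter.unusedSectionVars false

noncomputable section

namespace Pool.Agent.helper90.FL

open Filter Topology Module
open scoped ContDiff

variable {M : Type*} [NormedAddCommGroup M] [NormedSpace ℝ M]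

/-- iterated derivatives along a vector field -/
def itd (X : M → M) (f : M → ℝ) : ℕ → M → ℝ
  | 0 => f
  | j + 1 => fun x => fderiv ℝ (itd X f j) x (X x)

variable {U : Set M} {X : M → M} {f g s : M → ℝ}

theorem itd_smooth (hU : IsOpen U) (hX : ContDiffOn ℝ ∞ X U) (hf : ContDiffOn ℝ ∞ f U) (j : ℕ) :
    ContDiffOn ℝ ∞ (itd X f j) U := by
  induction j with
  | zero => exact hf
  | succ j ih => exact fder_app_smooth hU ih hX

theorem itd_congr (hU : IsOpen U) (h : ∀ x ∈ U, f x = g x) (j : ℕ) :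
    ∀ x ∈ U, itd X f j x = itd X g j x := by
  induction j with
  | zero => exact h
  | succ j ih =>
    intro x hx
    have h1 : itd X f j =ᶠ[𝓝 x] itd X g j := by
      filter_upwards [hU.mem_nhds hx] with y hy
      exact ih y hy
    show fderiv ℝ (itd X f j) x (X x) = fderiv ℝ (itd X g j) x (X x)
    rw [h1.fderiv_eq]

theorem itd_add (hU : IsOpen U) (hX : ContDiffOn ℝ ∞ X U) (hf : ContDiffOn ℝ ∞ f U)
    (hg : ContDiffOn ℝ ∞ g U) (j : ℕ) :
    ∀ x ∈ U, itd X (fun y => f y + g y) j x = itd X f j x + itd X g j x := by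
  induction j with
  | zero => intro x _; rfl
  | succ j ih =>
    intro x hx
    have h1 : itd X (fun y => f y + g y) j =ᶠ[𝓝 x] fun y => itd X f j y + itd X g j y := by
      filter_upwards [hU.mem_nhds hx] with y hy
      exact ih y hy
    show fderiv ℝ (itd X (fun y => f y + g y) j) x (X x) = _
    rw [h1.fderiv_eq, fderiv_fun_add (dif_at hU (itd_smooth hU hX hf j) hx)
      (dif_at hU (itd_smooth hU hX hg j) hx)]
    rfl

theorem itd_smul (hU : IsOpen U) (hX : ContDiffOn ℝ ∞ X U) (hf : ContDiffOn ℝ ∞ f U) (c : ℝ)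
    (j : ℕ) : ∀ x ∈ U, itd X (fun y => c * f y) j x = c * itd X f j x := by
  induction j with
  | zero => intro x _; rfl
  | succ j ih =>
    intro x hx
    have h1 : itd X (fun y => c * f y) j =ᶠ[𝓝 x] fun y => c * itd X f j y := by
      filter_upwards [hU.mem_nhds hx] with y hy
      exact ih y hy
    show fderiv ℝ (itd X (fun y => c * f y) j) x (X x) = _
    rw [h1.fderiv_eq, fderiv_const_mul (dif_at hU (itd_smooth hU hX hf j) hx)]
    rfl

theorem itd_sum {κ : Type*} (hU : IsOpen U) (hX : ContDiffOn ℝ ∞ X U) (t : Finset κ)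
    {F : κ → M → ℝ} (hF : ∀ a ∈ t, ContDiffOn ℝ ∞ (F a) U) (j : ℕ) :
    ∀ x ∈ U, itd X (fun y => ∑ a ∈ t, F a y) j x = ∑ a ∈ t, itd X (F a) j x := by
  classical
  induction t using Finset.induction_on with
  | empty =>
    intro x hx
    simp only [Finset.sum_empty]
    have h0 : ∀ (j : ℕ), itd X (fun _ : M => (0 : ℝ)) j = fun _ => 0 := by
      intro j
      induction j with
      | zero => rfl
      | succ j ih => funext y; simp [itd, ih]
    rw [h0]
  | insert a t ha ih =>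
    intro x hx
    have h1 := itd_add hU hX (hF a (Finset.mem_insert_self a t))
      (ContDiffOn.sum fun b hb => hF b (Finset.mem_insert_of_mem hb)) j x hx
    simp only [Finset.sum_insert ha]
    rw [h1, ih (fun b hb => hF b (Finset.mem_insert_of_mem hb)) x hx]

/-- **key identity** -/
theorem itd_mul_pow (hU : IsOpen U) (hX : ContDiffOn ℝ ∞ X U) (hg : ContDiffOn ℝ ∞ g U)
    (hs : ContDiffOn ℝ ∞ s U) (x₀ : M) (K j : ℕ) (hj : j ≤ K) :
    ∃ R : M → ℝ, ContDiffOn ℝ ∞ R U ∧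
      (∀ x ∈ U, itd X (fun y => g y * (s y - s x₀) ^ K) j x = (s x - s x₀) ^ (K - j) * R x) ∧
      R x₀ = (K.descFactorial j : ℝ) * (fderiv ℝ s x₀ (X x₀)) ^ j * g x₀ := by
  have hσ : ContDiffOn ℝ ∞ (fun x => s x - s x₀) U := hs.sub contDiffOn_const
  induction j with
  | zero =>
    refine ⟨g, hg, fun x _ => ?_, by simp⟩
    simp only [itd, Nat.sub_zero]
    ring
  | succ j ih =>
    obtain ⟨R, hR, hR1, hR2⟩ := ih (by omega)
    obtain ⟨n, hn⟩ : ∃ n, K - (j + 1) = n := ⟨_, rfl⟩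
    have hn1 : K - j = n + 1 := by omega
    refine ⟨fun x => ((n : ℝ) + 1) * R x * fderiv ℝ s x (X x) +
      (s x - s x₀) * fderiv ℝ R x (X x), ?_, ?_, ?_⟩
    · exact ((contDiffOn_const.mul hR).mul (fder_app_smooth hU hs hX)).add
        (hσ.mul (fder_app_smooth hU hR hX))
    · intro x hx
      have h1 : itd X (fun y => g y * (s y - s x₀) ^ K) j =ᶠ[𝓝 x]
          fun x => (s x - s x₀) ^ (n + 1) * R x := by
        filter_upwards [hU.mem_nhds hx] with y hy
        rw [hR1 y hy, hn1]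
      have h5 := (((dif_at hU hs hx).hasFDerivAt.sub_const (s x₀)).pow (n + 1)).mul
        (dif_at hU hR hx).hasFDerivAt
      have h6 : fderiv ℝ (itd X (fun y => g y * (s y - s x₀) ^ K) j) x =
          (((n : ℝ) + 1) * (s x - s x₀) ^ n * R x) • fderiv ℝ s x +
          ((s x - s x₀) ^ (n + 1)) • fderiv ℝ R x := by
        rw [h1.fderiv_eq]
        refine (h5.congr_fderiv ?_).fderiv
        ext w
        simp [nsmul_eq_mul]
        ring
      show fderiv ℝ (itd X (fun y => g y * (s y - s x₀) ^ K) j) x (X x) =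
        (s x - s x₀) ^ (K - (j + 1)) * _
      rw [h6]
      simp only [add_apply, smul_apply, smul_eq_mul]
      rw [hn, pow_succ (s x - s x₀) n]
      ring
    · simp only [sub_self, zero_mul, add_zero]
      rw [hR2, Nat.descFactorial_succ K j]
      have h2 : K - j = n + 1 := hn1
      rw [h2]
      push_cast
      ring

section Main

variable {ι : Type*} [Fintype ι] [DecidableEq ι] {J : ℕ}

/-- the family -/
def aff (f : M → ℝ) (g s : ι → M → ℝ) (p : ι → Fin J → ℝ) (x : M) : ℝ :=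
  f x + ∑ i, ∑ k : Fin J, p i k * (g i x * s i x ^ k.1)

/-- the tower of the family -/
def affT (X : M → M) (f : M → ℝ) (g s : ι → M → ℝ) (z : M × (ι → Fin J → ℝ)) (j : Fin J) : ℝ :=
  itd X f j z.1 + ∑ i, ∑ k : Fin J, z.2 i k * itd X (fun y => g i y * s i y ^ k.1) j z.1

theorem itd_aff (hU : IsOpen U) (hX : ContDiffOn ℝ ∞ X U) (hf : ContDiffOn ℝ ∞ f U)
    {g s : ι → M → ℝ} (hg : ∀ i, ContDiffOn ℝ ∞ (g i) U) (hs : ∀ i, ContDiffOn ℝ ∞ (s i) U)
    (p : ι → Fin J → ℝ) (j : ℕ) :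
    ∀ x ∈ U, itd X (aff f g s p) j x = itd X f j x +
      ∑ i, ∑ k : Fin J, p i k * itd X (fun y => g i y * s i y ^ k.1) j x := by
  intro x hx
  have h1 : ∀ i (k : Fin J), ContDiffOn ℝ ∞ (fun y => g i y * s i y ^ k.1) U := fun i k =>
    (hg i).mul ((hs i).pow _)
  have h2 : ∀ i (k : Fin J), ContDiffOn ℝ ∞ (fun y => p i k * (g i y * s i y ^ k.1)) U :=
    fun i k => contDiffOn_const.mul (h1 i k)
  have h3 := itd_add hU hX hf (ContDiffOn.sum fun i (_ : i ∈ Finset.univ) =>
    ContDiffOn.sum fun k (_ : k ∈ Finset.univ) => h2 i k) j x hx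
  show itd X (fun y => f y + ∑ i, ∑ k : Fin J, p i k * (g i y * s i y ^ k.1)) j x = _
  rw [h3, itd_sum hU hX Finset.univ (fun i _ => ContDiffOn.sum fun k
    (_ : k ∈ Finset.univ) => h2 i k) j x hx]
  congr 1
  refine Finset.sum_congr rfl fun i _ => ?_
  rw [itd_sum hU hX Finset.univ (fun k _ => h2 i k) j x hx]
  exact Finset.sum_congr rfl fun k _ => itd_smul hU hX (h1 i k) (p i k) j x hx

theorem affT_smooth (hU : IsOpen U) (hX : ContDiffOn ℝ ∞ X U) (hf : ContDiffOn ℝ ∞ f U)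
    {g s : ι → M → ℝ} (hg : ∀ i, ContDiffOn ℝ ∞ (g i) U) (hs : ∀ i, ContDiffOn ℝ ∞ (s i) U)
    (j : Fin J) : ContDiffOn ℝ ∞ (fun z : M × (ι → Fin J → ℝ) => affT X f g s z j)
      (U ×ˢ Set.univ) := by
  have h1 : ∀ {f : M → ℝ}, ContDiffOn ℝ ∞ f U →
      ContDiffOn ℝ ∞ (fun z : M × (ι → Fin J → ℝ) => f z.1) (U ×ˢ Set.univ) := fun hf =>
    hf.comp contDiff_fst.contDiffOn fun _ hz => hz.1
  refine (h1 (itd_smooth hU hX hf j)).add (ContDiffOn.sum fun i _ => ContDiffOn.sum fun k _ => ?_)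
  refine ContDiffOn.mul ?_ (h1 (itd_smooth hU hX ((hg i).mul ((hs i).pow _)) j))
  have h2 : ContDiff ℝ ∞ (fun z : M × (ι → Fin J → ℝ) => z.2 i k) := by
    have h3 : ContDiff ℝ ∞ (fun q : ι → Fin J → ℝ => q i k) :=
      (contDiff_apply ℝ ℝ k).comp (contDiff_apply ℝ (Fin J → ℝ) i)
    exact h3.comp contDiff_snd
  exact h2.contDiffOn

/-- recentred direction -/
def dirA (i₀ : ι) (c : ℝ) (K : Fin J) : ι → Fin J → ℝ :=
  fun i l => if i = i₀ then (K.1.choose l.1 : ℝ) * (-c) ^ (K.1 - l.1) else 0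

theorem sum_dirA (hU : IsOpen U) (hX : ContDiffOn ℝ ∞ X U) {g s : ι → M → ℝ}
    (hg : ∀ i, ContDiffOn ℝ ∞ (g i) U) (hs : ∀ i, ContDiffOn ℝ ∞ (s i) U) (i₀ : ι) (c : ℝ)
    (K : Fin J) (j : ℕ) {x : M} (hx : x ∈ U) :
    ∑ i, ∑ k : Fin J, dirA i₀ c K i k * itd X (fun y => g i y * s i y ^ k.1) j x =
      itd X (fun y => g i₀ y * (s i₀ y - c) ^ K.1) j x := by
  have h1 : ∑ i, ∑ k : Fin J, dirA i₀ c K i k * itd X (fun y => g i y * s i y ^ k.1) j x =
      ∑ k : Fin J, ((K.1.choose k.1 : ℝ) * (-c) ^ (K.1 - k.1)) *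
        itd X (fun y => g i₀ y * s i₀ y ^ k.1) j x := by
    rw [Finset.sum_eq_single i₀]
    · exact Finset.sum_congr rfl fun k _ => by simp [dirA]
    · intro i _ hi
      exact Finset.sum_eq_zero fun k _ => by simp [dirA, hi]
    · intro h; exact absurd (Finset.mem_univ _) h
  rw [h1]
  have h2 : ∀ (k : Fin J), ContDiffOn ℝ ∞ (fun y => g i₀ y * s i₀ y ^ k.1) U := fun k =>
    (hg i₀).mul ((hs i₀).pow _)
  have h3 : (fun y => g i₀ y * (s i₀ y - c) ^ K.1) = fun y => ∑ k : Fin J,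
      ((K.1.choose k.1 : ℝ) * (-c) ^ (K.1 - k.1)) * (g i₀ y * s i₀ y ^ k.1) := by
    funext y
    rw [sub_eq_add_neg, add_pow]
    rw [Fin.sum_univ_eq_sum_range (fun k => ((K.1.choose k : ℝ) * (-c) ^ (K.1 - k)) *
        (g i₀ y * s i₀ y ^ k)) J]
    have h4 : ∑ k ∈ Finset.range J, ((K.1.choose k : ℝ) * (-c) ^ (K.1 - k)) *
        (g i₀ y * s i₀ y ^ k) = ∑ k ∈ Finset.range (K.1 + 1),
        ((K.1.choose k : ℝ) * (-c) ^ (K.1 - k)) * (g i₀ y * s i₀ y ^ k) := by
      symm
      refine Finset.sum_subset (Finset.range_mono (Nat.succ_le_of_lt K.2)) fun k _ hk => ?_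
      rw [Nat.choose_eq_zero_of_lt]
      · simp
      · rw [Finset.mem_range, not_lt] at hk; omega
    rw [h4, Finset.mul_sum]
    exact Finset.sum_congr rfl fun k _ => by ring
  rw [h3, itd_sum hU hX Finset.univ (fun k _ => contDiffOn_const.mul (h2 k)) j x hx]
  exact Finset.sum_congr rfl fun k _ => (itd_smul hU hX (h2 k) _ j x hx).symm

variable [FiniteDimensional ℝ M]

/-- **generic finite type, affine version**, negligible bad set -/
theorem gft_aff_negl (hU : IsOpen U) (hX : ContDiffOn ℝ ∞ X U) (hf : ContDiffOn ℝ ∞ f U)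
    {g s : ι → M → ℝ} (hg : ∀ i, ContDiffOn ℝ ∞ (g i) U) (hs : ∀ i, ContDiffOn ℝ ∞ (s i) U)
    (hJ : finrank ℝ M < J) :
    Negl {p : ι → Fin J → ℝ | ∃ x ∈ U, (∃ i, g i x ≠ 0 ∧ fderiv ℝ (s i) x (X x) ≠ 0) ∧
      ∀ j : Fin J, itd X (aff f g s p) j x = 0} := by
  have hUP : IsOpen (U ×ˢ (Set.univ : Set (ι → Fin J → ℝ))) := hU.prod isOpen_univ
  have key := negl_param' (Y := M) (P := ι → Fin J → ℝ) (F := Fin J → ℝ)
    (Φ := affT X f g s)
    (S := {z : M × (ι → Fin J → ℝ) | z.1 ∈ U ∧ ∃ i, g i z.1 ≠ 0 ∧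
      fderiv ℝ (s i) z.1 (X z.1) ≠ 0})
    (by rw [finrank_fin_fun]; exact hJ)
    (by
      rintro ⟨x, p⟩ ⟨hx, i, hi1, hi2⟩ -
      have hx' : ((x, p) : M × (ι → Fin J → ℝ)) ∈ U ×ˢ (Set.univ : Set (ι → Fin J → ℝ)) :=
        ⟨hx, Set.mem_univ _⟩
      have hcd : ContDiffAt ℝ 1 (affT (J := J) X f g s) (x, p) := by
        rw [contDiffAt_pi]
        intro j
        exact ((affT_smooth hU hX hf hg hs j).contDiffAt (hUP.mem_nhds hx')).of_le (by norm_cast)
      refine ⟨hcd, ?_⟩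
      have hd := (hcd.differentiableAt one_ne_zero).hasFDerivAt
      have hval : ∀ (q : ι → Fin J → ℝ) (j : Fin J),
          fderiv ℝ (affT (J := J) X f g s) (x, p) (0, q) j =
            ∑ i, ∑ k : Fin J, q i k * itd X (fun y => g i y * s i y ^ k.1) j x := by
        intro q j
        have h1 : HasDerivAt (fun τ : ℝ => ((x, p) : M × (ι → Fin J → ℝ)) + τ • ((0 : M), q))
            ((0 : M), q) 0 := by
          simpa using ((hasDerivAt_id (0 : ℝ)).smul_const
            (((0 : M), q) : M × (ι → Fin J → ℝ))).const_add (x, p)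
        have h2 : HasFDerivAt (affT (J := J) X f g s) (fderiv ℝ (affT (J := J) X f g s) (x, p))
            (((x, p) : M × (ι → Fin J → ℝ)) + (0 : ℝ) • ((0 : M), q)) := by
          rw [zero_smul, add_zero]; exact hd
        have h3 := (hasDerivAt_pi.1 (h2.comp_hasDerivAt (0 : ℝ) h1)) j
        have h4 : ∀ τ : ℝ, affT (J := J) X f g s
            (((x, p) : M × (ι → Fin J → ℝ)) + τ • ((0 : M), q)) j =
            affT (J := J) X f g s (x, p) j + τ * (∑ i, ∑ k : Fin J, q i k *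
              itd X (fun y => g i y * s i y ^ k.1) j x) := by
          intro τ
          simp only [affT, Prod.smul_mk, smul_zero, Prod.mk_add_mk, add_zero, Pi.add_apply,
            Pi.smul_apply, smul_eq_mul, Finset.mul_sum]
          rw [add_assoc, ← Finset.sum_add_distrib]
          congr 1
          refine Finset.sum_congr rfl fun i _ => ?_
          rw [← Finset.sum_add_distrib]
          exact Finset.sum_congr rfl fun k _ => by ring
        have h6 : HasDerivAt (fun τ : ℝ => affT (J := J) X f g s (x, p) j + τ *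
            (∑ i, ∑ k : Fin J, q i k * itd X (fun y => g i y * s i y ^ k.1) j x))
            (∑ i, ∑ k : Fin J, q i k * itd X (fun y => g i y * s i y ^ k.1) j x) 0 := by
          simpa using ((hasDerivAt_id (0 : ℝ)).mul_const _).const_add
            (affT (J := J) X f g s (x, p) j)
        exact h3.unique (h6.congr_of_eventuallyEq (Filter.Eventually.of_forall h4))
      have hval2 : ∀ K j : Fin J, j ≤ K →
          fderiv ℝ (affT (J := J) X f g s) (x, p) (0, dirA i (s i x) K) j =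
          (0 : ℝ) ^ (K.1 - j.1) * ((K.1.descFactorial j.1 : ℝ) *
            (fderiv ℝ (s i) x (X x)) ^ j.1 * g i x) := by
        intro K j hj
        rw [hval, sum_dirA hU hX hg hs i (s i x) K j hx]
        obtain ⟨R, -, hR1, hR2⟩ := itd_mul_pow hU hX (hg i) (hs i) x K.1 j.1 hj
        rw [hR1 x hx, hR2, sub_self]
      have hsurj := tri_surj (J := J) ((fderiv ℝ (affT (J := J) X f g s) (x, p)).toLinearMap ∘ₗ
            (LinearMap.inr ℝ M (ι → Fin J → ℝ))) (fun K => dirA i (s i x) K)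
        (fun K j hjK => by
          show fderiv ℝ (affT (J := J) X f g s) (x, p) (0, dirA i (s i x) K) j = 0
          rw [hval2 K j hjK.le, zero_pow (by
            have : j.1 < K.1 := hjK
            omega), zero_mul])
        (fun K => by
          show fderiv ℝ (affT (J := J) X f g s) (x, p) (0, dirA i (s i x) K) K ≠ 0
          rw [hval2 K K le_rfl, Nat.sub_self, pow_zero, one_mul, Nat.descFactorial_self]
          exact mul_ne_zero (mul_ne_zero (by positivity) (pow_ne_zero _ hi2)) hi1)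
      exact hsurj)
  refine key.mono ?_
  rintro p ⟨x, hx, hi, h0⟩
  refine ⟨x, ⟨hx, hi⟩, ?_⟩
  funext j
  simp only [Pi.zero_apply]
  have := h0 j
  rw [itd_aff hU hX hf hg hs p j x hx] at this
  exact this

/-- **generic finite type, affine version** -/
theorem gft_aff (hU : IsOpen U) (hX : ContDiffOn ℝ ∞ X U) (hf : ContDiffOn ℝ ∞ f U)
    {g s : ι → M → ℝ} (hg : ∀ i, ContDiffOn ℝ ∞ (g i) U) (hs : ∀ i, ContDiffOn ℝ ∞ (s i) U)
    (hJ : finrank ℝ M < J) :
    Dense {p : ι → Fin J → ℝ | ∀ x ∈ U, (∃ i, g i x ≠ 0 ∧ fderiv ℝ (s i) x (X x) ≠ 0) →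
      ∃ j : Fin J, itd X (aff f g s p) j x ≠ 0} := by
  refine (gft_aff_negl hU hX hf hg hs hJ).dense.mono ?_
  intro p hp x hx hi
  by_contra hcon
  push Not at hcon
  exact hp ⟨x, hx, hi, hcon⟩

/-- small coefficients -/
theorem exists_small_of_dense {Q : Type*} [NormedAddCommGroup Q] {D : Set Q} (hD : Dense D)
    {ε : ℝ} (hε : 0 < ε) : ∃ p ∈ D, ‖p‖ < ε := by
  obtain ⟨p, hp1, hp2⟩ := hD.exists_mem_open (Metric.isOpen_ball (x := (0 : Q)) (ε := ε))
    ⟨0, Metric.mem_ball_self hε⟩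
  exact ⟨p, hp1, by simpa using hp2⟩

end Main

end Pool.Agent.helper90.FL
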